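import Mathlib

namespace Pool.Agent.Results.MP_52931c_nt.LogPowerLowerBound

/-- The pair `(d, w)` is admissible for `n`: `d` is a power of two and `w / d < d / n`. -/
def Admissible (n d w : ℕ) : Prop :=
  (∃ j : ℕ, d = 2 ^ j) ∧ (w : ℝ) / (d : ℝ) < (d : ℝ) / (n : ℝ)

/-- `A` nearly contains a `(t, d, w)`-progression: for some `b ≥ 0` each of the blocks
`I_i = [b + i d, b + i d + w]` with `1 ≤ i ≤ t - 1` meets `A`. -/
def NearlyContains (A : Finset ℕ) (t d w : ℕ) : Prop :=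
  ∃ b : ℕ, ∀ i ∈ Finset.Icc 1 (t - 1), ∃ a ∈ A, a ∈ Finset.Icc (b + i * d) (b + i * d + w)

/-- `A` nearly contains no `(t, d, w)`-progression with `(d, w)` admissible for `n`. -/
def Avoids (A : Finset ℕ) (t n : ℕ) : Prop :=
  ∀ d w : ℕ, Admissible n d w → ¬ NearlyContains A t d w

/-- The values `x` in the grid `{0, 1/n, ..., 1}` for which some `A ⊆ [1, n]` with
`|A| ≥ x n` nearly contains no `(t, d, w)`-progression with `(d, w)` admissible for `n`. -/
def gridValues (t n : ℕ) : Set ℝ :=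
  {x : ℝ | (∃ j : ℕ, j ≤ n ∧ x = (j : ℝ) / (n : ℝ)) ∧
    ∃ A : Finset ℕ, A ⊆ Finset.Icc 1 n ∧ x * (n : ℝ) ≤ (A.card : ℝ) ∧ Avoids A t n}

/-- `g_t(n)`, the maximal element of the set of grid values. -/
noncomputable def g (t n : ℕ) : ℝ := sSup (gridValues t n)

lemma gridValues_finite (t n : ℕ) : (gridValues t n).Finite := by
  apply Set.Finite.subset ((Finset.range (n + 1)).image (fun j : ℕ => (j : ℝ) / (n : ℝ))).finite_toSet
  rintro x ⟨⟨j, hj, rfl⟩, -⟩
  simp only [Finset.coe_image, Finset.coe_range, Set.mem_image, Set.mem_Iio]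
  exact ⟨j, by omega, rfl⟩

lemma gridValues_nonempty (t n : ℕ) (ht : 2 ≤ t) : (gridValues t n).Nonempty := by
  refine ⟨0, ⟨0, by omega, by simp⟩, ∅, by simp, by simp, ?_⟩
  rintro d w - ⟨b, hb⟩
  obtain ⟨a, ha, -⟩ := hb 1 (by simp; omega)
  simp at ha

/-- For `t ≥ 2` the supremum in the definition of `g` is a maximum. -/
lemma g_isGreatest (t n : ℕ) (ht : 2 ≤ t) : IsGreatest (gridValues t n) (g t n) :=
  ⟨(gridValues_nonempty t n ht).csSup_mem (gridValues_finite t n),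
    fun _ hx => le_csSup (gridValues_finite t n).bddAbove hx⟩

lemma card_shift (m R x : ℕ) (hm : 0 < m) (hR : R ≤ m) :
    ((Finset.range m).filter (fun s => (x + s) % m < R)).card = R := by
  have hinj : Set.InjOn (fun s => (x + s) % m) (Finset.range m : Set ℕ) := by
    intro a ha b hb hab
    simp only [Finset.coe_range, Set.mem_Iio] at ha hb
    have h1 : x + a ≡ x + b [MOD m] := hab
    have h2 := Nat.ModEq.add_left_cancel' x h1
    exact Nat.ModEq.eq_of_lt_of_lt h2 ha hb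
  have himg : (Finset.range m).image (fun s => (x + s) % m) = Finset.range m := by
    apply Finset.eq_of_subset_of_card_le
    · intro y hy
      simp only [Finset.mem_image, Finset.mem_range] at hy ⊢
      obtain ⟨a, ha, rfl⟩ := hy
      exact Nat.mod_lt _ hm
    · rw [Finset.card_image_of_injOn hinj]
  have h1 : ((Finset.range m).filter (fun s => (x + s) % m < R)).image
      (fun s => (x + s) % m) = Finset.range R := by
    ext y
    constructor
    · intro hy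
      simp only [Finset.mem_image, Finset.mem_filter, Finset.mem_range] at hy ⊢
      obtain ⟨a, ⟨-, h⟩, rfl⟩ := hy
      exact h
    · intro hy
      have h3 : y ∈ (Finset.range m).image (fun s => (x + s) % m) := by
        rw [himg]
        simp only [Finset.mem_range] at hy ⊢
        omega
      simp only [Finset.mem_image, Finset.mem_filter, Finset.mem_range] at h3 hy ⊢
      obtain ⟨a, ha, rfl⟩ := h3
      exact ⟨a, ⟨ha, hy⟩, rfl⟩
  have h4 := Finset.card_image_of_injOn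
    (s := (Finset.range m).filter (fun s => (x + s) % m < R))
    (f := fun s => (x + s) % m)
    (hinj.mono (by
      intro a ha
      have ha' := Finset.mem_filter.mp (Finset.mem_coe.mp ha)
      exact Finset.mem_coe.mpr ha'.1))
  rw [h1, Finset.card_range] at h4
  exact h4.symm

lemma exists_shift (X : Finset ℕ) (m R : ℕ) (hm : 0 < m) (hR : R ≤ m) :
    ∃ s : ℕ, R * X.card ≤ m * (X.filter (fun x => (x + s) % m < R)).card := by
  by_contra h
  push Not at h
  have hsum : ∑ s ∈ Finset.range m, (X.filter (fun x => (x + s) % m < R)).card = X.card * R := by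
    simp_rw [Finset.card_filter]
    rw [Finset.sum_comm]
    have h1 : ∀ x ∈ X, ∑ s ∈ Finset.range m, (if (x + s) % m < R then 1 else 0) = R := by
      intro x _
      rw [← Finset.card_filter]
      exact card_shift m R x hm hR
    rw [Finset.sum_congr rfl h1]
    simp
  have h2 : ∑ s ∈ Finset.range m, m * (X.filter (fun x => (x + s) % m < R)).card
      < ∑ s ∈ Finset.range m, R * X.card :=
    Finset.sum_lt_sum_of_nonempty (by simp; omega) (fun s _ => h s)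
  rw [← Finset.mul_sum, hsum] at h2
  simp only [Finset.sum_const, Finset.card_range, smul_eq_mul] at h2
  have h3 : m * (X.card * R) = m * (R * X.card) := by ring
  omega

/-- Sieving by `Q` shifted residue conditions keeps at least the product of the densities. -/
lemma exists_set (n : ℕ) (m R : ℕ → ℕ) (hm : ∀ q, 0 < m q) (hR : ∀ q, R q ≤ m q) (Q : ℕ) :
    ∃ A : Finset ℕ, A ⊆ Finset.Icc 1 n ∧
      (∀ q < Q, ∃ s : ℕ, ∀ a ∈ A, (a + s) % m q < R q) ∧
      (n : ℝ) * ∏ q ∈ Finset.range Q, ((R q : ℝ) / (m q : ℝ)) ≤ (A.card : ℝ) := by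
  induction Q with
  | zero => exact ⟨Finset.Icc 1 n, le_refl _, by simp, by simp⟩
  | succ Q ih =>
    obtain ⟨A, hA, hq, hc⟩ := ih
    obtain ⟨s, hs⟩ := exists_shift A (m Q) (R Q) (hm Q) (hR Q)
    refine ⟨A.filter (fun x => (x + s) % m Q < R Q), (Finset.filter_subset _ _).trans hA, ?_, ?_⟩
    · intro q hqQ
      rcases Nat.lt_succ_iff_lt_or_eq.mp hqQ with h | rfl
      · obtain ⟨s', hs'⟩ := hq q h
        exact ⟨s', fun a ha => hs' a (Finset.mem_filter.mp ha).1⟩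
      · exact ⟨s, fun a ha => (Finset.mem_filter.mp ha).2⟩
    · rw [Finset.prod_range_succ, ← mul_assoc]
      have hmQ : (0 : ℝ) < (m Q : ℝ) := by exact_mod_cast hm Q
      have h1 : ((R Q : ℝ)) * (A.card : ℝ)
          ≤ (m Q : ℝ) * ((A.filter (fun x => (x + s) % m Q < R Q)).card : ℝ) := by
        exact_mod_cast hs
      rw [mul_div_assoc', div_le_iff₀ hmQ]
      calc ((n : ℝ) * ∏ q ∈ Finset.range Q, ((R q : ℝ) / (m q : ℝ))) * (R Q : ℝ)
          ≤ (A.card : ℝ) * (R Q : ℝ) := by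
            apply mul_le_mul_of_nonneg_right hc (by positivity)
        _ ≤ _ := by linarith

/-- The separation lemma: elements of one residue window modulo `3 * 2 ^ J` never differ by
almost a power of two that is at least `2 ^ J`. -/
lemma separation (J j W w s a₁ a₂ b : ℕ) (hj : J ≤ j) (hw : w ≤ W) (hW : W < 2 ^ J)
    (h1 : (a₁ + s) % (3 * 2 ^ J) < 2 ^ J - W) (h2 : (a₂ + s) % (3 * 2 ^ J) < 2 ^ J - W)
    (h3 : b + 2 ^ j ≤ a₁) (h4 : a₁ ≤ b + 2 ^ j + w)
    (h5 : b + 2 * 2 ^ j ≤ a₂) (h6 : a₂ ≤ b + 2 * 2 ^ j + w) : False := by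
  obtain ⟨i, rfl⟩ := Nat.exists_eq_add_of_le hj
  set M : ℕ := 2 ^ J with hM
  have hMpos : 0 < M := by positivity
  have hpow : 2 ^ (J + i) = M * 2 ^ i := by rw [pow_add]
  rw [hpow] at h3 h4 h5 h6
  have e1 := Nat.div_add_mod (a₁ + s) (3 * M)
  have e2 := Nat.div_add_mod (a₂ + s) (3 * M)
  set q₁ := (a₁ + s) / (3 * M) with hq1
  set q₂ := (a₂ + s) / (3 * M) with hq2
  set r₁ := (a₁ + s) % (3 * M) with hr1
  set r₂ := (a₂ + s) % (3 * M) with hr2
  have h3i : ¬ (3 : ℤ) ∣ 2 ^ i := by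
    intro h
    have hp : Prime (3 : ℤ) := Int.prime_three
    have := hp.dvd_of_dvd_pow h
    omega
  -- c = 2^i - 3 (q₂ - q₁)
  have hc : (2 : ℤ) ^ i - 3 * ((q₂ : ℤ) - q₁) ≠ 0 := by
    intro h
    apply h3i
    exact ⟨(q₂ : ℤ) - q₁, by linarith⟩
  have E1 : (3 * (M : ℤ)) * q₁ + r₁ = a₁ + s := by exact_mod_cast e1
  have E2 : (3 * (M : ℤ)) * q₂ + r₂ = a₂ + s := by exact_mod_cast e2
  have H3 : (b : ℤ) + M * 2 ^ i ≤ a₁ := by exact_mod_cast h3
  have H4 : (a₁ : ℤ) ≤ b + M * 2 ^ i + w := by exact_mod_cast h4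
  have H5 : (b : ℤ) + 2 * (M * 2 ^ i) ≤ a₂ := by exact_mod_cast h5
  have H6 : (a₂ : ℤ) ≤ b + 2 * (M * 2 ^ i) + w := by exact_mod_cast h6
  have R1 : (r₁ : ℤ) < M - W := by omega
  have R2 : (r₂ : ℤ) < M - W := by omega
  have Hw : (w : ℤ) ≤ W := by exact_mod_cast hw
  have r1n : (0 : ℤ) ≤ r₁ := by positivity
  have r2n : (0 : ℤ) ≤ r₂ := by positivity
  have hMz : (0 : ℤ) < M := by exact_mod_cast hMpos
  have key : (M : ℤ) * ((2 : ℤ) ^ i - 3 * ((q₂ : ℤ) - q₁))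
      = M * 2 ^ i - (a₂ - a₁) + (r₂ - r₁) := by
    linear_combination E1 - E2
  have up : (M : ℤ) * ((2 : ℤ) ^ i - 3 * ((q₂ : ℤ) - q₁)) < M := by
    rw [key]; linarith
  have lo : -(M : ℤ) < (M : ℤ) * ((2 : ℤ) ^ i - 3 * ((q₂ : ℤ) - q₁)) := by
    rw [key]; linarith
  have c1 : ((2 : ℤ) ^ i - 3 * ((q₂ : ℤ) - q₁)) < 1 := by
    by_contra hcon
    push Not at hcon
    nlinarith
  have c2 : -1 < ((2 : ℤ) ^ i - 3 * ((q₂ : ℤ) - q₁)) := by
    by_contra hcon
    push Not at hcon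
    nlinarith
  omega

/-- Exponents of the moduli used at the successive scales. -/
def Jf (N q : ℕ) : ℕ := if q = 0 then N - 1 else if q = 1 then N - 2 else N - (2 ^ (q - 1) + 1)

/-- Allowed widths at the successive scales. -/
def Wf (N q : ℕ) : ℕ := if q < 2 then 2 ^ (Jf N q) / 2 else 2 ^ (Jf N q) / 8

lemma Wf_lt (N q : ℕ) : Wf N q < 2 ^ (Jf N q) := by
  have h : 0 < 2 ^ (Jf N q) := by positivity
  unfold Wf
  split_ifs <;> omega

lemma cover (n j w : ℕ) (hn : 1 ≤ n) (hj : 2 * 2 ^ j ≤ n) (hw : w * n < 2 ^ j * 2 ^ j) :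
    ∃ q < Nat.log 2 (Nat.log 2 n) + 3, Jf (Nat.log 2 n) q ≤ j ∧ w ≤ Wf (Nat.log 2 n) q := by
  set N := Nat.log 2 n with hN
  have h1 : 2 ^ N ≤ n := Nat.pow_log_le_self 2 (by omega)
  have h2 : n < 2 ^ (N + 1) := Nat.lt_pow_succ_log_self (by norm_num) n
  have h3 : j + 1 ≤ N := by
    have : 2 ^ (j + 1) < 2 ^ (N + 1) := by
      calc 2 ^ (j + 1) = 2 * 2 ^ j := by ring
        _ ≤ n := hj
        _ < _ := h2
    have := (Nat.pow_lt_pow_iff_right (by norm_num : 1 < 2)).mp this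
    omega
  have hw2 : w * 2 ^ N < 2 ^ (2 * j) := by
    calc w * 2 ^ N ≤ w * n := Nat.mul_le_mul_left _ h1
      _ < 2 ^ j * 2 ^ j := hw
      _ = 2 ^ (2 * j) := by rw [← pow_add]; congr 1; omega
  -- general width bound
  have hgen : ∀ J c : ℕ, (0 < w → 2 * j + c ≤ J + N) → w ≤ 2 ^ J / 2 ^ c := by
    intro J c hJ
    rcases Nat.eq_zero_or_pos w with h0 | h0
    · rw [h0]; exact Nat.zero_le _
    · rw [Nat.le_div_iff_mul_le (by positivity)]
      by_contra hcon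
      push Not at hcon
      have h4 : 2 ^ (J + N) < 2 ^ (2 * j + c) := by
        calc 2 ^ (J + N) = 2 ^ J * 2 ^ N := by rw [pow_add]
          _ < (w * 2 ^ c) * 2 ^ N := Nat.mul_lt_mul_of_pos_right hcon (by positivity)
          _ = (w * 2 ^ N) * 2 ^ c := by ring
          _ ≤ 2 ^ (2 * j) * 2 ^ c := Nat.mul_le_mul_right _ hw2.le
          _ = 2 ^ (2 * j + c) := by rw [pow_add]
      have h5 := (Nat.pow_lt_pow_iff_right (by norm_num : 1 < 2)).mp h4
      have h6 := hJ h0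
      omega
  have hpos : 0 < w → N < 2 * j := by
    intro h0
    have h4 : 2 ^ N < 2 ^ (2 * j) := by
      calc 2 ^ N = 1 * 2 ^ N := by ring
        _ ≤ w * 2 ^ N := Nat.mul_le_mul_right _ h0
        _ < _ := hw2
    exact (Nat.pow_lt_pow_iff_right (by norm_num : 1 < 2)).mp h4
  obtain ⟨i, hi⟩ : ∃ i, N = j + i := ⟨N - j, by omega⟩
  rcases Nat.lt_or_ge i 3 with hi3 | hi3
  · have hi12 : i = 1 ∨ i = 2 := by omega
    rcases hi12 with rfl | rfl
    · refine ⟨0, by omega, ?_, ?_⟩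
      · simp only [Jf, if_true]; omega
      · have := hgen (N - 1) 1 (by intro; omega)
        simpa [Wf, Jf] using this
    · refine ⟨1, by omega, ?_, ?_⟩
      · simp only [Jf]; norm_num; omega
      · have := hgen (N - 2) 1 (by intro; omega)
        simpa [Wf, Jf] using this
  · set s := Nat.log 2 (i - 2) with hs
    have hs1 : 2 ^ s ≤ i - 2 := Nat.pow_log_le_self 2 (by omega)
    have hs2 : i - 2 < 2 ^ (s + 1) := Nat.lt_pow_succ_log_self (by norm_num) _
    have hs3 : s ≤ Nat.log 2 N := Nat.log_mono_right (by omega)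
    have hp : 2 ^ (s + 1) = 2 * 2 ^ s := by ring
    refine ⟨s + 2, by omega, ?_, ?_⟩
    · have : Jf N (s + 2) = N - (2 ^ (s + 1) + 1) := by simp [Jf]
      rw [this]
      omega
    · have hJ : Jf N (s + 2) = N - (2 ^ (s + 1) + 1) := by simp [Jf]
      have hWf : Wf N (s + 2) = 2 ^ (N - (2 ^ (s + 1) + 1)) / 2 ^ 3 := by
        simp [Wf, hJ]
      rw [hWf]
      apply hgen
      intro h0
      have := hpos h0
      omega

lemma density_two (N q : ℕ) (hq : q < 2) :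
    (1 : ℝ) / 6 ≤ ((2 ^ (Jf N q) - Wf N q : ℕ) : ℝ) / ((3 * 2 ^ (Jf N q) : ℕ) : ℝ) := by
  have hW := Wf_lt N q
  have hpos : 0 < 2 ^ (Jf N q) := by positivity
  rw [div_le_div_iff₀ (by norm_num) (by positivity)]
  have : Wf N q = 2 ^ (Jf N q) / 2 := by simp [Wf, hq]
  have h : 1 * (3 * 2 ^ (Jf N q)) ≤ (2 ^ (Jf N q) - Wf N q) * 6 := by omega
  exact_mod_cast h

lemma density_eight (N q : ℕ) (hq : 2 ≤ q) :
    (7 : ℝ) / 24 ≤ ((2 ^ (Jf N q) - Wf N q : ℕ) : ℝ) / ((3 * 2 ^ (Jf N q) : ℕ) : ℝ) := by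
  have hW := Wf_lt N q
  have hpos : 0 < 2 ^ (Jf N q) := by positivity
  rw [div_le_div_iff₀ (by norm_num) (by positivity)]
  have : Wf N q = 2 ^ (Jf N q) / 8 := by simp [Wf, Nat.not_lt.mpr hq]
  have h : 7 * (3 * 2 ^ (Jf N q)) ≤ (2 ^ (Jf N q) - Wf N q) * 24 := by omega
  exact_mod_cast h

lemma prod_bound (N L : ℕ) :
    (1 / 36 : ℝ) * (7 / 24) ^ (L + 1) ≤ ∏ q ∈ Finset.range (L + 3),
      (((2 ^ (Jf N q) - Wf N q : ℕ) : ℝ) / ((3 * 2 ^ (Jf N q) : ℕ) : ℝ)) := by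
  rw [Finset.prod_range_succ', Finset.prod_range_succ']
  have h0 := density_two N 0 (by norm_num)
  have h1 := density_two N 1 (by norm_num)
  have h2 : (7 / 24 : ℝ) ^ (L + 1) ≤ ∏ q ∈ Finset.range (L + 1),
      (((2 ^ (Jf N (q + 1 + 1)) - Wf N (q + 1 + 1) : ℕ) : ℝ) /
        ((3 * 2 ^ (Jf N (q + 1 + 1)) : ℕ) : ℝ)) := by
    rw [← Finset.card_range (L + 1), ← Finset.prod_const, Finset.card_range]
    apply Finset.prod_le_prod
    · intro i _; norm_num
    · intro i _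
      exact density_eight N (i + 1 + 1) (by omega)
  have h3 : (0 : ℝ) ≤ (7 / 24 : ℝ) ^ (L + 1) := by positivity
  calc (1 / 36 : ℝ) * (7 / 24) ^ (L + 1) = (7 / 24) ^ (L + 1) * (1 / 6) * (1 / 6) := by ring
    _ ≤ _ := by
      apply mul_le_mul _ h0 (by norm_num) _
      · apply mul_le_mul h2 h1 (by norm_num) (le_trans h3 h2)
      · apply mul_nonneg (le_trans h3 h2)
        exact le_trans (by norm_num) h1

/-- **Main result.** For every `t ≥ 3` and all large `n` one has `g_t(n) ≥ (log n)^(-2)`.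
In particular the asserted bound `g_t(n) < 1 / (log n)^k` for large `n` fails for every `t ≥ 3`
(take `k = 2`). -/
theorem result : ∀ t : ℕ, 3 ≤ t → ∃ n₀ : ℕ, ∀ n : ℕ, n₀ ≤ n →
    1 / (Real.log n) ^ 2 ≤ g t n := by
  intro t ht
  obtain ⟨L₀, hL₀⟩ := ((tendsto_pow_atTop_atTop_of_one_lt
    (by norm_num : (1 : ℝ) < 7 / 6)).eventually_ge_atTop 300).exists_forall_of_atTop
  refine ⟨2 ^ (2 ^ L₀), fun n hn => ?_⟩
  have hn1 : 1 ≤ n := le_trans Nat.one_le_two_pow hn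
  set N := Nat.log 2 n with hN
  set L := Nat.log 2 N with hL
  have hN1 : 2 ^ L₀ ≤ N := Nat.le_log_of_pow_le (by norm_num) hn
  have hN0 : N ≠ 0 := by
    have : 0 < 2 ^ L₀ := by positivity
    omega
  have hL1 : L₀ ≤ L := Nat.le_log_of_pow_le (by norm_num) hN1
  have hLN : 2 ^ L ≤ N := Nat.pow_log_le_self 2 hN0
  have hNn : 2 ^ N ≤ n := Nat.pow_log_le_self 2 (by omega)
  obtain ⟨A, hA, hq, hc⟩ := exists_set n (fun q => 3 * 2 ^ (Jf N q))
    (fun q => 2 ^ (Jf N q) - Wf N q) (fun q => by positivity)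
    (fun q => by
      have : 0 < 2 ^ (Jf N q) := by positivity
      omega) (L + 3)
  have hav : Avoids A t n := by
    rintro d w ⟨⟨j, rfl⟩, hlt⟩ ⟨b, hb⟩
    obtain ⟨a₁, ha₁, hI₁⟩ := hb 1 (by simp; omega)
    obtain ⟨a₂, ha₂, hI₂⟩ := hb 2 (by simp; omega)
    rw [Finset.mem_Icc] at hI₁ hI₂
    have hle : a₂ ≤ n := (Finset.mem_Icc.mp (hA ha₂)).2
    have hj : 2 * 2 ^ j ≤ n := by omega
    have hw : w * n < 2 ^ j * 2 ^ j := by
      have hd : (0 : ℝ) < ((2 ^ j : ℕ) : ℝ) := by positivity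
      have hnn : (0 : ℝ) < (n : ℝ) := by exact_mod_cast hn1
      rw [div_lt_div_iff₀ hd hnn] at hlt
      exact_mod_cast hlt
    obtain ⟨q, hqL, hqJ, hqW⟩ := cover n j w hn1 hj hw
    obtain ⟨s, hs⟩ := hq q hqL
    refine separation (Jf N q) j (Wf N q) w s a₁ a₂ b hqJ hqW (Wf_lt N q)
      (hs a₁ ha₁) (hs a₂ ha₂) ?_ ?_ ?_ ?_ <;> omega
  have hnpos : (0 : ℝ) < (n : ℝ) := by exact_mod_cast hn1
  have hcard : A.card ≤ n := by
    have := Finset.card_le_card hA
    simpa using this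
  have hmem : (A.card : ℝ) / n ∈ gridValues t n := by
    refine ⟨⟨A.card, hcard, rfl⟩, A, hA, ?_, hav⟩
    rw [div_mul_cancel₀ _ hnpos.ne']
  have hg : (A.card : ℝ) / n ≤ g t n := le_csSup (gridValues_finite t n).bddAbove hmem
  refine le_trans ?_ hg
  have hprod := prod_bound N L
  have hlogn : (2 : ℝ) ^ L * Real.log 2 ≤ Real.log n := by
    have h1 : Real.log ((2 : ℝ) ^ N) ≤ Real.log n := by
      apply Real.log_le_log (by positivity)
      exact_mod_cast hNn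
    rw [Real.log_pow] at h1
    have h2 : (2 : ℝ) ^ L ≤ N := by exact_mod_cast hLN
    have h3 : 0 < Real.log 2 := Real.log_pos (by norm_num)
    nlinarith
  have hlog2 : (0.69 : ℝ) ≤ Real.log 2 := by
    have := Real.log_two_gt_d9
    linarith
  have hlogn2 : (0.69 : ℝ) * 2 ^ L ≤ Real.log n := by
    have : (0 : ℝ) < 2 ^ L := by positivity
    nlinarith
  have hsq : (0.476 : ℝ) * 4 ^ L ≤ (Real.log n) ^ 2 := by
    have h0 : (0 : ℝ) ≤ 0.69 * 2 ^ L := by positivity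
    have h1 : ((0.69 : ℝ) * 2 ^ L) ^ 2 ≤ (Real.log n) ^ 2 := pow_le_pow_left₀ h0 hlogn2 2
    have h2 : ((0.69 : ℝ) * 2 ^ L) ^ 2 = 0.4761 * 4 ^ L := by
      rw [mul_pow, ← pow_mul, mul_comm L 2, pow_mul]; norm_num
    have h3 : (0 : ℝ) < 4 ^ L := by positivity
    nlinarith
  have h300 : (300 : ℝ) ≤ (7 / 6) ^ L := hL₀ L hL1
  have hlogpos : 0 < (Real.log n) ^ 2 := by
    have : (0 : ℝ) < 0.476 * 4 ^ L := by positivity
    linarith
  have hfin : 1 ≤ (1 / 36 : ℝ) * (7 / 24) ^ (L + 1) * (Real.log n) ^ 2 := by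
    have e1 : (1 / 36 : ℝ) * (7 / 24) ^ (L + 1) * (0.476 * 4 ^ L)
        = (1 / 36 * (7 / 24) * 0.476) * (7 / 6) ^ L := by
      have : (7 / 6 : ℝ) ^ L = (7 / 24) ^ L * 4 ^ L := by
        rw [← mul_pow]; norm_num
      rw [this, pow_succ]; ring
    have e2 : (1 / 36 : ℝ) * (7 / 24) ^ (L + 1) * (0.476 * 4 ^ L)
        ≤ (1 / 36 : ℝ) * (7 / 24) ^ (L + 1) * (Real.log n) ^ 2 := by
      apply mul_le_mul_of_nonneg_left hsq (by positivity)
    have e3 : (1 : ℝ) ≤ (1 / 36 * (7 / 24) * 0.476) * (7 / 6) ^ L := by nlinarith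
    linarith
  rw [div_le_div_iff₀ hlogpos hnpos]
  have hcn : (n : ℝ) * ((1 / 36 : ℝ) * (7 / 24) ^ (L + 1)) ≤ (A.card : ℝ) :=
    le_trans (mul_le_mul_of_nonneg_left hprod hnpos.le) hc
  calc 1 * (n : ℝ) = n * 1 := by ring
    _ ≤ n * ((1 / 36 : ℝ) * (7 / 24) ^ (L + 1) * (Real.log n) ^ 2) :=
        mul_le_mul_of_nonneg_left hfin hnpos.le
    _ = (n * ((1 / 36 : ℝ) * (7 / 24) ^ (L + 1))) * (Real.log n) ^ 2 := by ring
    _ ≤ _ := mul_le_mul_of_nonneg_right hcn hlogpos.le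

end Pool.Agent.Results.MP_52931c_nt.LogPowerLowerBound
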